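import Mathlib
import Pool.Agent.U213.RA.Over
import Pool.Agent.U157.EC.Grp
import Pool.Agent.U157.EC.Sm

/-!
# Ratios of critical values: the abstract data of an extension `L / k`
-/

set_option autoImplicit false
set_option linter.unusedSectionVars false

open Filter Topology

namespace Pool.Agent.U157.RA

open Pool.Agent.R389 Pool.Agent.H302R2 Pool.Agent.H541R3.ART Pool.Agent.W446.AS
open Pool.Agent.U213.RA
open Pool.Agent.U157.EC (bc_tr nofix irr_isDecomp const_up)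
open Pool.Agent.U213.EC (exists_matrix toRep toRep_char exists_decomp bc bc_trace bc_det
  mono_of_virt exists_induced extend mem_of_agree up up_map up_isDecomp prod_up up_decomp up_ind
  up_indE preG preGHom preG_surj ker_eq exists_degQ regQ_decomp closure_inv mono_of_commutator)

variable {k F₀ : Type} [Field k] [NumberField k] [Field F₀] [NumberField F₀] [Algebra k F₀]
  [IsGalois k F₀]

/-- the abstract data -/
structure Abs (D : Data k F₀) (w m : ℕ) (H : Subgroup D.G) {Q : Type} [Group Q] [Finite Q]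
    (π : H →* Q) (E : Type) [Field E] [NumberField E] (j : k →+* E)
    (ℓ : (E →+* ℂ) → (Q → ℂ) → ℂ → ℂ) (P : (E →+* ℂ) → (Q → ℂ) → ℂ) : Prop where
  mero : ∀ τ, ∀ χ ∈ Irr Q, MeromorphicAt (ℓ τ χ) m ∧ meromorphicOrderAt (ℓ τ χ) m ≠ ⊤
  per : ∀ τ, ∀ χ ∈ Irr Q, P τ χ ≠ 0
  isL : ∀ (τ : E →+* ℂ) (f : Q → ℂ) (μ : (Q → ℂ) → ℕ), IsDecomp f μ →
    D.IsL w (τ.comp j) (up H π f) (fun s => ∏ᶠ χ ∈ Irr Q, ℓ τ χ s ^ μ χ)
  mon : ∀ (U : Subgroup Q) (ψ : U →* Eˣ),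
    R389.Deligne ℓ P m (ind U (fun u => ((ψ u : Eˣ) : E)))
  del : ∀ (n : ℕ) (ρ : Q →* Matrix (Fin n) (Fin n) E) (d : ℕ) (σ : D.G →* Matrix (Fin d) (Fin d) E),
    (∀ g, (σ g).trace = up H π (fun q => (ρ q).trace) g) →
    (D.Ratio w m j σ ↔ R389.Deligne ℓ P m (fun q => (ρ q).trace))

theorem exists_abs {w m : ℕ} (hwm : w < 2 * m) (hmw : m < w) (hM : MonomialTheorem)
    (D : Data k F₀) (H : Subgroup D.G) {Q : Type}
    [Group Q] [Finite Q] (π : H →* Q) (hπ : Function.Surjective π)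
    (E : Type) [Field E] [NumberField E] (j : k →+* E) (ζ : E)
    (hζ : IsPrimitiveRoot ζ (Monoid.exponent D.G)) :
    ∃ (ζ' : E) (ℓ : (E →+* ℂ) → (Q → ℂ) → ℂ → ℂ) (P : (E →+* ℂ) → (Q → ℂ) → ℂ),
      IsPrimitiveRoot ζ' (Monoid.exponent Q) ∧ Abs D w m H π E j ℓ P := by
  classical
  have hm0 : 0 < m := by omega
  have hs : (w : ℝ) / 2 + 1 < (((m : ℂ) + 1)).re := by
    have h1 : (w : ℝ) < 2 * m := by exact_mod_cast hwm
    simp
    linarith
  have hex : ∀ (κ : k →+* ℂ), ∀ χ ∈ Irr D.G, ∃ ℓ, D.IsL w κ χ ℓ := by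
    intro κ χ hχ
    obtain ⟨τ₀, hτ₀⟩ := Data.exists_ext j κ
    have h1 := Data.exists_isL hζ τ₀ (fun U ψ n ρ hρ => hM _ _ D w m hwm hmw E j U ψ n ρ hρ)
      (AddSubgroup.subset_closure hχ)
    rwa [hτ₀] at h1
  choose! ℓ hℓ using hex
  have hdeg : ∃ deg : (D.G → ℂ) → ℕ, ∀ χ ∈ Irr D.G, χ 1 = deg χ := exists_degQ
  obtain ⟨deg, hdeg⟩ := hdeg
  have hmon : ∀ (U : Subgroup D.G) (ψ : U →* Eˣ),
      R389.Deligne (fun τ : E →+* ℂ => ℓ (τ.comp j)) (D.P j m ℓ deg) m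
        (ind U (fun u => ((ψ u : Eˣ) : E))) := by
    intro U ψ
    obtain ⟨n', ρ', hρ'⟩ := exists_induced U ψ
    have h4 := (Data.ratio_iff hm0 hwm hℓ hdeg ρ').mp (hM _ _ D w m hwm hmw E j U ψ n' ρ' hρ')
    have h5 : (fun g => (ρ' g).trace) = ind U (fun u => ((ψ u : Eˣ) : E)) := funext hρ'
    rwa [h5] at h4
  have hMex : ∀ χ ∈ Irr Q, ∃ m, IsDecomp (up H π χ) m := fun χ hχ => up_decomp H π hχ
  choose! M hM' using hMex
  have hdvd : Monoid.exponent Q ∣ Monoid.exponent D.G := by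
    refine Monoid.exponent_dvd_of_forall_pow_eq_one fun q => ?_
    obtain ⟨x, rfl⟩ := hπ q
    rw [← map_pow]
    have : x ^ Monoid.exponent D.G = 1 := by
      apply Subtype.ext
      rw [Subgroup.coe_pow, Monoid.pow_exponent_eq_one]
      rfl
    rw [this, map_one]
  obtain ⟨a, ha⟩ := hdvd
  have hζ' : IsPrimitiveRoot (ζ ^ a) (Monoid.exponent Q) :=
    hζ.pow D.exp_pos (by rw [ha, mul_comm])
  refine ⟨ζ ^ a, fun τ χ s => ∏ᶠ η ∈ Irr D.G, ℓ (τ.comp j) η s ^ M χ η,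
    fun τ χ => ∏ᶠ η ∈ Irr D.G, D.P j m ℓ deg τ η ^ M χ η, hζ', ?_, ?_, ?_, ?_, ?_⟩
  · intro τ χ hχ
    have h4 := Data.isL_decomp (hℓ (τ.comp j)) (hM' χ hχ)
    exact ⟨h4.1 m, h4.order_ne m⟩
  · intro τ χ hχ
    rw [finprod_irr (fun η => D.P j m ℓ deg τ η ^ M χ η)]
    refine Finset.prod_ne_zero_iff.mpr fun η hη => pow_ne_zero _ ?_
    exact mul_ne_zero (pow_ne_zero _ (Data.C_ne hm0))
      ((hℓ (τ.comp j) η (mem_irrF.mp hη)).ne_at hs)
  · exact fun τ f μ hμ => Data.order_up (hℓ _) H π hM' hμ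
  · intro U ψ
    obtain ⟨τ₀⟩ : Nonempty (E →+* ℂ) := inferInstance
    have h4 : ∀ τ : E →+* ℂ, ∃ m, IsDecomp (fun q => τ (ind U (fun u => ((ψ u : Eˣ) : E)) q)) m := by
      intro τ
      obtain ⟨m, hm⟩ := ind_isDecomp U ((Units.map τ.toMonoidHom).comp ψ)
      refine ⟨m, ?_⟩
      have h5 : (fun q => τ (ind U (fun u => ((ψ u : Eˣ) : E)) q))
          = ind U (fun h => ((((Units.map τ.toMonoidHom).comp ψ) h : ℂˣ) : ℂ)) := by
        funext g
        rw [ind_map]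
        rfl
      rw [h5]
      exact hm
    rw [← deligne_up' H π hM' h4, up_indE H π hπ τ₀]
    exact hmon _ _
  · intro n ρ d σ hσ
    rw [Data.ratio_iff hm0 hwm hℓ hdeg]
    have h1 : (fun g => (σ g).trace) = up H π (fun q => (ρ q).trace) := funext hσ
    rw [h1]
    have hdec : ∀ (τ : E →+* ℂ), ∃ m, IsDecomp (fun q => τ (ρ q).trace) m := by
      intro τ
      obtain ⟨m, hm⟩ := exists_decomp (bc τ ρ)
      have h2 : (fun q => (bc τ ρ q).trace) = fun q => τ (ρ q).trace :=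
        funext fun q => bc_trace τ ρ q
      rw [h2] at hm
      exact ⟨m, hm⟩
    exact deligne_up' H π hM' hdec

/-- the function of the orders at the embedding `κ` is constant on `K` for all abstract data -/
def Const (D : Data k F₀) (w m : ℕ) (κ : k →+* ℂ) (H : Subgroup D.G) {Q : Type} [Group Q] [Finite Q]
    (π : H →* Q) (K : Subgroup Q) : Prop :=
  ∀ (E : Type) [Field E] [NumberField E] (j : k →+* E) (ζ : E),
    IsPrimitiveRoot ζ (Monoid.exponent Q) →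
    ∀ (ℓ : (E →+* ℂ) → (Q → ℂ) → ℂ → ℂ) (P : (E →+* ℂ) → (Q → ℂ) → ℂ), Abs D w m H π E j ℓ P →
    ∀ τ₀ : E →+* ℂ, τ₀.comp j = κ →
    ∀ x ∈ K, (theta (ords (ℓ τ₀) m) : Q → ℂ) x = (theta (ords (ℓ τ₀) m) : Q → ℂ) 1

variable {D : Data k F₀} {w m : ℕ} {κ : k →+* ℂ} {H : Subgroup D.G} {Q : Type} [Group Q] [Finite Q]
  {π : H →* Q}

/-- **All representations.** -/
theorem ra_all (hwm : w < 2 * m) (hmw : m < w) (hM : MonomialTheorem) (hπ : Function.Surjective π)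
    (hK : ∀ (E : Type) [Field E] [NumberField E] (j : k →+* E) (ζ : E),
      IsPrimitiveRoot ζ (Monoid.exponent Q) →
      ∀ (ℓ : (E →+* ℂ) → (Q → ℂ) → ℂ → ℂ) (P : (E →+* ℂ) → (Q → ℂ) → ℂ), Abs D w m H π E j ℓ P →
      ∃ (τ₀ : E →+* ℂ) (K : Subgroup Q) (_ : K.Normal), AN (Q ⧸ K) ∧
        ∀ x ∈ K, (theta (ords (ℓ τ₀) m) : Q → ℂ) x = (theta (ords (ℓ τ₀) m) : Q → ℂ) 1)
    (E : Type) [Field E] [NumberField E] (j : k →+* E) (n : ℕ) (ρ : Q →* Matrix (Fin n) (Fin n) E)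
    (d : ℕ) (σ : D.G →* Matrix (Fin d) (Fin d) E)
    (hσ : ∀ g, (σ g).trace = ind H (fun h => (ρ (π h)).trace) g) : D.Ratio w m j σ := by
  classical
  have hm0 : 0 < m := by omega
  have : NeZero (Monoid.exponent D.G) := ⟨D.exp_pos.ne'⟩
  have hN : NumberField (CyclotomicField (Monoid.exponent D.G) E) :=
    IsCyclotomicExtension.numberField {Monoid.exponent D.G} E _
  let E' := CyclotomicField (Monoid.exponent D.G) E
  obtain ⟨ζ', ℓ, P, hζ', A⟩ := exists_abs hwm hmw hM D H π hπ E' ((algebraMap E E').comp j) _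
    (IsCyclotomicExtension.zeta_spec (Monoid.exponent D.G) E _)
  refine Data.ratio_descend (E' := E') hm0 hwm σ ?_
  let ρ' : Q →* Matrix (Fin n) (Fin n) E' := (algebraMap E E').mapMatrix.toMonoidHom.comp ρ
  rw [A.del n ρ' d _ (fun g => by
    rw [bc_tr, hσ]
    have h1 : (fun q => (ρ' q).trace) = fun q => algebraMap E E' (ρ q).trace :=
      funext fun q => bc_tr _ ρ q
    rw [h1, ← up_map]
    rfl)]
  obtain ⟨τ₀, K, hKn, hKa, hKc⟩ := hK E' _ ζ' hζ' ℓ P A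
  have h3 := Pool.Agent.U157.DL.all_deligne (L := ℓ) (P := P) (c := m)
    hζ' A.mero A.per A.mon τ₀ K hKc (fun W _ _ _ σ hσ =>
      Pool.Agent.U157.DL.old_deligne hζ' A.mero A.per A.mon τ₀ K hKa σ hσ)
      (toRep ρ')
  have h4 : (toRep ρ').character = fun g => (ρ' g).trace := funext fun g => toRep_char ρ' g
  rwa [h4] at h3

/-- **Representations without fixed vectors.** -/
theorem ra_new (hwm : w < 2 * m) (hmw : m < w) (hM : MonomialTheorem) (hπ : Function.Surjective π)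
    (K : Subgroup Q) [K.Normal] (hK : Const D w m κ H π K)
    (E : Type) [Field E] [NumberField E] (j : k →+* E) (n : ℕ) (ρ : Q →* Matrix (Fin n) (Fin n) E)
    (hρ : ∀ v : Fin n → E, (∀ x ∈ K, (ρ x).mulVec v = v) → v = 0)
    (d : ℕ) (σ : D.G →* Matrix (Fin d) (Fin d) E)
    (hσ : ∀ g, (σ g).trace = ind H (fun h => (ρ (π h)).trace) g) :
    D.Ratio w m j σ ∧ ∀ (τ : E →+* ℂ) (ℓ : ℂ → ℂ), D.IsL w (τ.comp j) (fun g => τ (σ g).trace) ℓ →
      meromorphicOrderAt ℓ m = 0 := by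
  classical
  have hm0 : 0 < m := by omega
  have : NeZero (Monoid.exponent D.G) := ⟨D.exp_pos.ne'⟩
  have hN : NumberField (CyclotomicField (Monoid.exponent D.G) E) :=
    IsCyclotomicExtension.numberField {Monoid.exponent D.G} E _
  let E' := CyclotomicField (Monoid.exponent D.G) E
  obtain ⟨ζ', ℓ, P, hζ', A⟩ := exists_abs hwm hmw hM D H π hπ E' ((algebraMap E E').comp j) _
    (IsCyclotomicExtension.zeta_spec (Monoid.exponent D.G) E _)
  let ρ' : Q →* Matrix (Fin n) (Fin n) E' := (algebraMap E E').mapMatrix.toMonoidHom.comp ρ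
  have h0 : (fun q => (ρ' q).trace) = fun q => algebraMap E E' (ρ q).trace :=
    funext fun q => bc_tr _ ρ q
  obtain ⟨τ₀, hτ₀⟩ := Data.exists_ext ((algebraMap E E').comp j) κ
  have h4 : (toRep ρ').character = fun g => (ρ' g).trace := funext fun g => toRep_char ρ' g
  obtain ⟨e, he0, he⟩ := Pool.Agent.U157.DL.new_deligne (L := ℓ)
    (P := P) (c := m) hζ' A.mero A.per A.mon τ₀ K
    (hK E' _ ζ' hζ' ℓ P A τ₀ hτ₀) (toRep ρ') (fun v hv => by
      refine nofix (algebraMap E E') ρ hρ v fun k hk => ?_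
      have := hv k hk
      exact this)
  rw [h4] at he
  constructor
  · refine Data.ratio_descend (E' := E') hm0 hwm σ ?_
    rw [A.del n ρ' d _ (fun g => by
      rw [bc_tr, hσ, h0, ← up_map]
      rfl)]
    exact ⟨e, fun τ m hm => he τ m hm⟩
  · intro τ ℓ' hℓ'
    obtain ⟨τ', hτ'⟩ := extend (E' := E') τ
    obtain ⟨m', hm'⟩ := exists_decomp (bc τ' ρ')
    have h2 : (fun q => (bc τ' ρ' q).trace) = fun q => τ' (ρ' q).trace :=
      funext fun q => bc_trace τ' ρ' q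
    rw [h2] at hm'
    have h5 := he τ' m' hm'
    have h6 := A.isL τ' _ _ hm'
    have h7 : up H π (fun q => τ' (ρ' q).trace) = fun g => τ (σ g).trace := by
      funext g
      rw [hσ]
      have h8 : (fun q => τ' (ρ' q).trace) = fun q => τ (ρ q).trace := by
        funext q
        have := congrFun h0 q
        beta_reduce at this
        rw [this, hτ']
      rw [h8, ← up_map]
      rfl
    have h9 : τ'.comp ((algebraMap E E').comp j) = τ.comp j := by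
      ext x
      exact hτ' (j x)
    rw [h7, h9] at h6
    rw [meromorphicOrderAt_congr (hℓ'.unique h6 m)]
    have h8 : τ' e * ∏ᶠ χ ∈ Irr Q, P τ' χ ^ m' χ ≠ 0 := by
      refine mul_ne_zero ((map_ne_zero τ').mpr he0) ?_
      rw [finprod_irr (fun χ => P τ' χ ^ m' χ)]
      exact Finset.prod_ne_zero_iff.mpr fun χ hχ => pow_ne_zero _ (A.per τ' χ (mem_irrF.mp hχ))
    exact (tendsto_ne_zero_iff_meromorphicOrderAt_eq_zero (h6.1 m)).mp ⟨_, h8, h5⟩

lemma Abs.isL_irr {E : Type} [Field E] [NumberField E] {j : k →+* E}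
    {l : (E →+* ℂ) → (Q → ℂ) → ℂ → ℂ} {P : (E →+* ℂ) → (Q → ℂ) → ℂ}
    (A : Abs D w m H π E j l P) (τ : E →+* ℂ) {χ : Q → ℂ} (hχ : χ ∈ Irr Q) :
    D.IsL w (τ.comp j) (up H π χ) (l τ χ) := by
  classical
  have h1 := A.isL τ _ _ (irr_isDecomp hχ)
  have h2 : (fun s => ∏ᶠ η ∈ Irr Q, l τ η s ^ (if η = χ then 1 else 0)) = l τ χ := by
    funext s
    rw [finprod_irr (fun η => l τ η s ^ (if η = χ then 1 else 0))]
    have h3 : ∀ η ∈ irrF Q, l τ η s ^ (if η = χ then 1 else 0) = if η = χ then l τ η s else 1 := by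
      intro η _
      split_ifs
      · rw [pow_one]
      · rw [pow_zero]
    rw [Finset.prod_congr rfl h3, Finset.prod_ite_eq' (irrF Q) χ, if_pos (mem_irrF.mpr hχ)]
  rwa [h2] at h1

/-- the irreducible characters with a zero or a pole are trivial on `K` -/
lemma const_of_special {K : Subgroup Q}
    (h : ∀ χ ∈ Irr Q, (∃ ℓ : ℂ → ℂ, D.IsL w κ (ind H (fun h => χ (π h))) ℓ ∧
      meromorphicOrderAt ℓ m ≠ 0) → ∀ x ∈ K, χ x = χ 1) : Const D w m κ H π K := by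
  intro E _ _ j ζ hζ l P A τ₀ hτ₀
  refine Pool.Agent.U157.DL.theta_of_kernel (l := l τ₀) (c := m) K
    (fun χ hχ h0 => h χ hχ ⟨l τ₀ χ, ?_, h0⟩)
  have h1 := A.isL_irr τ₀ hχ
  rw [hτ₀] at h1
  exact h1

lemma Abs.ha {E : Type} [Field E] [NumberField E] {j : k →+* E}
    {l : (E →+* ℂ) → (Q → ℂ) → ℂ → ℂ} {P : (E →+* ℂ) → (Q → ℂ) → ℂ}
    (A : Abs D w m H π E j l P) {ζ : E} (hζ : IsPrimitiveRoot ζ (Monoid.exponent Q))
    (τ₀ : E →+* ℂ) : HA (theta (ords (l τ₀) m) : Q → ℂ) :=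
  ha_ords (L := l) (P := P) (c := m) hζ A.mero A.mon τ₀

/-- small growth over a normal subgroup on which the orders are constant -/
theorem small_up (hπ : Function.Surjective π) {N : Subgroup Q} [N.Normal] (hK : Const D w m κ H π N)
    {ℓ ℓ₁ : ℂ → ℂ} (hℓ : D.IsL w κ (ind (π.ker.map H.subtype) (fun _ => 1)) ℓ)
    (hs : Group.IsSolvable (Q ⧸ N)) (lam : (Q ⧸ N) →* ℂˣ)
    (hℓ₁ : D.IsL w κ (ind H (fun h => ((lam (QuotientGroup.mk (π h)) : ℂˣ) : ℂ))) ℓ₁)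
    (hz : ∀ p : ℕ, p.Prime → p ∣ Nat.card (Q ⧸ N) →
      meromorphicOrderAt ℓ m < meromorphicOrderAt ℓ₁ m + p)
    (E : Type) [Field E] [NumberField E] (j : k →+* E) (ζ : E)
    (hζ : IsPrimitiveRoot ζ (Monoid.exponent Q))
    (l : (E →+* ℂ) → (Q → ℂ) → ℂ → ℂ) (P : (E →+* ℂ) → (Q → ℂ) → ℂ) (A : Abs D w m H π E j l P)
    (τ₀ : E →+* ℂ) (hτ₀ : τ₀.comp j = κ) :
    ∃ (K : Subgroup Q) (_ : K.Normal), AN (Q ⧸ K) ∧
      ∀ x ∈ K, (theta (ords (l τ₀) m) : Q → ℂ) x = (theta (ords (l τ₀) m) : Q → ℂ) 1 := by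
  classical
  obtain ⟨deg, hdeg⟩ := exists_degQ (Q := Q)
  have hθ := A.ha hζ τ₀
  have hh : HH (theta (ords (l τ₀) m) : Q → ℂ) := ⟨hθ.conj, fun U ψ _ => hθ.nat U ψ⟩
  obtain ⟨a, ha⟩ := hh.deg
  -- the order over `L`
  have hone := theta_one_eq (c := (m : ℂ)) (l := l τ₀) hdeg
  have htop := top_order (c := (m : ℂ)) (A.mero τ₀) deg
  have ha' : (∑ χ ∈ irrF Q, (deg χ : ℤ) * ords (l τ₀) m χ) = (a : ℤ) := by
    rw [ha] at hone
    exact_mod_cast hone.symm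
  have h3 := A.isL τ₀ _ _ (regQ_decomp hdeg)
  rw [ker_eq H π hπ, hτ₀] at h3
  have hoa : meromorphicOrderAt ℓ m = ((a : ℤ) : WithTop ℤ) := by
    rw [← meromorphicOrderAt_congr (h3.unique hℓ m), htop, ha']
  -- the order of the twist by `lam`
  let ψ : Q →* ℂˣ := lam.comp (QuotientGroup.mk' N)
  have hf : (fun g => ((lam (QuotientGroup.mk g) : ℂˣ) : ℂ)) ∈ Irr Q := lin_irr ψ
  obtain ⟨b, hb⟩ := hθ.lin ψ
  have h4 := A.isL τ₀ _ _ (irr_isDecomp hf)
  rw [hτ₀] at h4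
  obtain ⟨z, hz1, hz2⟩ := order_eq_pr (L := l) (c := m) A.mero τ₀ (irr_isDecomp hf)
  have hzb : z = b := by
    have h5 : (z : ℂ) = ((b : ℤ) : ℂ) := by
      rw [← hz2]
      have h6 : pr (theta (ords (l τ₀) m) : Q → ℂ) (lc ψ) = b := hb
      push_cast
      exact h6
    exact_mod_cast h5
  have hob : meromorphicOrderAt ℓ₁ m = ((b : ℤ) : WithTop ℤ) := by
    rw [← meromorphicOrderAt_congr (h4.unique hℓ₁ m), hz1, hzb]
  refine const_up hθ (hK E j ζ hζ l P A τ₀ hτ₀) hs lam ha hb fun p hp hd => ?_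
  have h5 := hz p hp hd
  rw [hoa, hob] at h5
  have h6 : (a : ℤ) < (b : ℤ) + (p : ℤ) := by exact_mod_cast h5
  exact_mod_cast h6

lemma const_of_rigid (hπ : Function.Surjective π) {ℓ : ℂ → ℂ}
    (hℓ : D.IsL w κ (ind (π.ker.map H.subtype) (fun _ => 1)) ℓ) {r : ℕ}
    (hr : meromorphicOrderAt ℓ m ≤ r) (N : Subgroup Q) (hN : Pool.Agent.Y788.V.RigidV r N) :
    Const D w m κ H π N := by
  intro E _ _ j ζ hζ l P A τ₀ hτ₀
  obtain ⟨deg, hdeg⟩ := exists_degQ (Q := Q)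
  refine Pool.Agent.U157.DL.theta_const (L := l) (P := P) (c := m) hζ
    A.mero A.mon τ₀ hdeg (r := r) ?_ N hN
  have h3 := A.isL τ₀ _ _ (regQ_decomp hdeg)
  rw [ker_eq H π hπ, hτ₀] at h3
  rw [meromorphicOrderAt_congr (h3.unique hℓ m)]
  exact hr

end Pool.Agent.U157.RA
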